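import Pool.Agent.H83.O1.K7
import Pool.Agent.H68.O1.Heta

set_option autoImplicit false

/-!
K7 in both forms: in a finite simple nonassociative automorphic loop with an inversion without fixed
points, every `th(a, b)` fixes `a` and `b`.
-/

namespace ALoop

open Equiv

variable {Q : Type*} {G : Subgroup (Perm Q)} {L : Q → Perm Q} {J : Perm Q} {e : Q}

namespace AL

/-- K7 -/
theorem K7 [Finite Q] (h : AL G L J e) (hna : ¬ Assoc L) (hfix : ∀ x, J x = x → x = e) (a b : Q) :
    Th L J a b b = b :=
  K7_of h hna hfix (fun a b q => h.al0.heta a b q rfl) a b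

/-- K7, mirror form -/
theorem K7' [Finite Q] (h : AL G L J e) (hna : ¬ Assoc L) (hfix : ∀ x, J x = x → x = e) (a b : Q) :
    Th L J a b a = a := by
  have h1 : Th L J (J b) (J a) (J a) = J a := h.K7 hna hfix (J b) (J a)
  rw [h.al0.Th_inv, Perm.inv_eq_iff_eq] at h1
  have h2 : Th L J a b (J a) = J (Th L J a b a) := by
    have h3 := h.al0.Th_J a b
    have h4 := congrArg (fun f : Perm Q => f a) h3
    simpa only [Perm.mul_apply] using h4
  rw [h2] at h1
  exact (J.injective h1).symm

end AL

end ALoop
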