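import Pool.Agent.H83.O1.Full
import Pool.Agent.H57.OC.End
import Pool.Agent.H4.SF.Fix

set_option autoImplicit false

/-!
A finite simple automorphic loop of odd order is associative.
-/

namespace ALoop

open Equiv

variable {Q : Type*} {G : Subgroup (Perm Q)} {L : Q → Perm Q} {J : Perm Q} {e : Q}

/-- a finite simple automorphic loop of odd order is associative -/
theorem AL.assoc_of_odd [Finite Q] (h : AL G L J e) (hodd : Odd (Nat.card Q)) : Assoc L := by
  by_contra hna
  exact hna (h.assoc_of_K7 (h.K7 hna (h.fix_of_odd hodd)))

end ALoop
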