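import Pool.Agent.H38.O2.Main
import Pool.Agent.H38.O1.N3

set_option autoImplicit false

/-!
K7: in a finite simple nonassociative automorphic loop with an inversion without fixed points,
`th(a, b)` fixes `b` (helpers 93, 77, 79, 83), given that `[th(a, b), T_b]` commutes with its conjugates
under all reflections.
-/

namespace ALoop

open Equiv

variable {Q : Type*} {G : Subgroup (Perm Q)} {L : Q → Perm Q} {J : Perm Q} {e : Q}

/-- four elements in a square -/
theorem square_trick {M : Type*} [Group M] {A B A' B' : M} (h1 : Commute A A') (h2 : Commute B B')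
    (h3 : Commute A B) (h4 : Commute A' B') (h5 : Commute (A * B⁻¹) (A' * B'⁻¹)) :
    Commute (A * B) (A' * B') := by
  -- `[A'⁻¹, B⁻¹] = [A⁻¹, B'⁻¹] = c`
  obtain ⟨c, hc⟩ : ∃ c, c = A'⁻¹ * B⁻¹ * A' * B := ⟨_, rfl⟩
  have h6 : A⁻¹ * B'⁻¹ * A * B' = c := by
    have e1 : A * B⁻¹ * (A' * B'⁻¹) = A' * B'⁻¹ * (A * B⁻¹) := h5.eq
    have e2 : B⁻¹ * B'⁻¹ = B'⁻¹ * B⁻¹ := (h2.inv_inv).eq
    have e3 : A'⁻¹ * A = A * A'⁻¹ := (h1.inv_right).eq.symm
    rw [hc]
    have e4 : A⁻¹ * B'⁻¹ * A = (A'⁻¹ * B⁻¹ * A') * B * B'⁻¹ := by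
      have e5 : A'⁻¹ * (A * B⁻¹ * (A' * B'⁻¹)) * B = B'⁻¹ * A := by
        rw [e1]; group
      calc A⁻¹ * B'⁻¹ * A = A⁻¹ * (B'⁻¹ * A) := by group
        _ = A⁻¹ * (A'⁻¹ * (A * B⁻¹ * (A' * B'⁻¹)) * B) := by rw [e5]
        _ = A⁻¹ * ((A'⁻¹ * A) * B⁻¹ * A' * (B'⁻¹ * B)) := by group
        _ = A⁻¹ * ((A * A'⁻¹) * B⁻¹ * A' * (B * B'⁻¹)) := by
            rw [e3, (h2.inv_right).eq]
        _ = (A'⁻¹ * B⁻¹ * A') * B * B'⁻¹ := by group
    rw [e4]; group
  have cA : Commute A c := by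
    rw [hc]
    exact ((h1.inv_right.mul_right h3.inv_right).mul_right h1).mul_right h3
  have cB : Commute B c := by
    rw [← h6]
    exact ((h3.symm.inv_right.mul_right h2.inv_right).mul_right h3.symm).mul_right h2
  have cA' : Commute A' c := by
    rw [← h6]
    exact ((h1.symm.inv_right.mul_right h4.inv_right).mul_right h1.symm).mul_right h4
  have cB' : Commute B' c := by
    rw [hc]
    exact ((h4.symm.inv_right.mul_right h2.symm.inv_right).mul_right h4.symm).mul_right h2.symm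
  -- `A' B = B A' c`, `A B' = B' A c`
  have e1 : B⁻¹ * A' = A' * c * B⁻¹ := by
    rw [hc]; group
  have e2 : B'⁻¹ * A = A * c * B'⁻¹ := by
    rw [← h6]; group
  have f1 : A' * B = B * A' * c := by
    calc A' * B = B * (B⁻¹ * A') * B := by group
      _ = B * (A' * c * B⁻¹) * B := by rw [e1]
      _ = B * A' * c := by group
  have f2 : A * B' = B' * A * c := by
    calc A * B' = B' * (B'⁻¹ * A) * B' := by group
      _ = B' * (A * c * B'⁻¹) * B' := by rw [e2]
      _ = B' * A * c := by group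
  change A * B * (A' * B') = A' * B' * (A * B)
  have f3 : B * A' = A' * B * c⁻¹ := by rw [f1]; group
  calc A * B * (A' * B') = A * (B * A') * B' := by group
    _ = A * (A' * B * c⁻¹) * B' := by rw [f3]
    _ = (A * A') * B * (c⁻¹ * B') := by group
    _ = (A' * A) * B * (B' * c⁻¹) := by rw [h1.eq, (cB'.inv_right).eq]
    _ = A' * A * (B * B') * c⁻¹ := by group
    _ = A' * A * (B' * B) * c⁻¹ := by rw [h2.eq]
    _ = A' * (A * B') * B * c⁻¹ := by group
    _ = A' * (B' * A * c) * B * c⁻¹ := by rw [f2]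
    _ = A' * B' * A * (c * B) * c⁻¹ := by group
    _ = A' * B' * A * (B * c) * c⁻¹ := by rw [cB.eq]
    _ = A' * B' * (A * B) := by group

namespace AL

/-- helper93: `t = th(a, b)` fixes `u = b \ (t b)` and commutes with `L_b⁻¹ t L_b` -/
theorem t_data (h : AL G L J e) (a b : Q) :
    ∃ u : Q, ∃ k : Perm Q, k ∈ G ∧ k e = e ∧ k u = u ∧ Commute k (Th L J a b) ∧ Commute k J ∧
      Th L J a b u = u ∧ L b u = Th L J a b b ∧
      (L b)⁻¹ * Th L J a b * L b = L u * k⁻¹ * Th L J a b ∧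
      ((Tx L J b)⁻¹ * Th L J a b * Tx L J b) * Th L J a b =
        (J * ((L b)⁻¹ * Th L J a b * L b) * J) * ((L b)⁻¹ * Th L J a b * L b) := by
  have h0 := h.al0
  have hJJ := h.JJ1
  obtain ⟨t, ht⟩ : ∃ t, t = Th L J a b := ⟨_, rfl⟩
  have htG : t ∈ G := by rw [ht]; exact h0.Th_mem a b
  have hte : t e = e := by rw [ht]; exact h0.Th_e a b
  have htJ : t * J = J * t := by rw [ht]; exact h0.Th_J a b
  obtain ⟨T, hT⟩ : ∃ T, T = Tx L J b := ⟨_, rfl⟩
  have hTG : T ∈ G := by rw [hT]; exact h0.Tx_mem b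
  have hTe : T e = e := by rw [hT]; exact h0.Tx_e b
  obtain ⟨t1, ht1⟩ : ∃ t1, t1 = T⁻¹ * t * T := ⟨_, rfl⟩
  have f1 : (L a)⁻¹ * Rt L J b * L a = Rt L J b * t⁻¹ := by
    rw [ht]; unfold Th; group
  have f2 : (L a)⁻¹ * Rt L J (J b) * L a = Rt L J (J b) * t1 := by
    have h1 := h0.K1 a b
    have h2 : t1 = (Th L J a (J b))⁻¹ := by
      rw [ht1, hT, ht]
      calc (Tx L J b)⁻¹ * Th L J a b * Tx L J b = (Tx L J b)⁻¹ * (Th L J a b * Tx L J b) := by group
        _ = (Tx L J b)⁻¹ * (Tx L J b * (Th L J a (J b))⁻¹) := by rw [h1]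
        _ = (Th L J a (J b))⁻¹ := by group
    rw [h2]; unfold Th; group
  obtain ⟨X, hX⟩ : ∃ X, X = (L b)⁻¹ * t * L b := ⟨_, rfl⟩
  have hLb : L b = T * Rt L J b := by rw [hT]; exact h0.L_eq b
  have hX2 : X = (Rt L J b)⁻¹ * t1 * Rt L J b := by
    rw [hX, hLb, ht1]; group
  have hXJ : J * X * J = (Rt L J (J b))⁻¹ * t * Rt L J (J b) := by
    have h1 : Rt L J (J b) = J * L b * J := (h0.JLJ b).symm
    have h2 : (Rt L J (J b))⁻¹ = J * (L b)⁻¹ * J := by
      rw [h1, mul_inv_rev, mul_inv_rev, h.Jinv]; group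
    rw [h2, h1, hX]
    calc J * ((L b)⁻¹ * t * L b) * J = J * (L b)⁻¹ * 1 * t * L b * J := by group
      _ = J * (L b)⁻¹ * (J * J) * t * L b * J := by rw [hJJ]
      _ = J * (L b)⁻¹ * J * (J * t) * L b * J := by group
      _ = J * (L b)⁻¹ * J * (t * J) * L b * J := by rw [htJ]
      _ = J * (L b)⁻¹ * J * t * (J * L b * J) := by group
  obtain ⟨XJ, hXJd⟩ : ∃ XJ, XJ = J * X * J := ⟨_, rfl⟩
  rw [← hXJd] at hXJ
  obtain ⟨mu, hmu⟩ : ∃ mu, mu = Rt L J b * Rt L J (J b) := ⟨_, rfl⟩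
  have hmuG : mu ∈ G := by rw [hmu]; exact G.mul_mem (h0.memR _) (h0.memR _)
  have hmue : mu e = e := by
    rw [hmu, Perm.mul_apply, h0.Rt_e, h0.Rt_app, h0.JL]
  have hRR := h0.RRJ b
  have e1 : XJ⁻¹ * t1 = X * t⁻¹ := by
    have h1 : (Rt L J b * t⁻¹) * (Rt L J (J b) * t1) = (Rt L J (J b) * t1) * (Rt L J b * t⁻¹) := by
      rw [← f1, ← f2]
      calc (L a)⁻¹ * Rt L J b * L a * ((L a)⁻¹ * Rt L J (J b) * L a) =
          (L a)⁻¹ * (Rt L J b * Rt L J (J b)) * L a := by group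
        _ = (L a)⁻¹ * (Rt L J (J b) * Rt L J b) * L a := by rw [hRR]
        _ = (L a)⁻¹ * Rt L J (J b) * L a * ((L a)⁻¹ * Rt L J b * L a) := by group
    have h2 : XJ⁻¹ = (Rt L J (J b))⁻¹ * t⁻¹ * Rt L J (J b) := by rw [hXJ]; group
    rw [h2, hX2]
    calc (Rt L J (J b))⁻¹ * t⁻¹ * Rt L J (J b) * t1 =
        (Rt L J (J b))⁻¹ * (Rt L J b)⁻¹ * ((Rt L J b * t⁻¹) * (Rt L J (J b) * t1)) := by group
      _ = (Rt L J b * Rt L J (J b))⁻¹ * ((Rt L J (J b) * t1) * (Rt L J b * t⁻¹)) := by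
          rw [h1]; group
      _ = (Rt L J (J b) * Rt L J b)⁻¹ * ((Rt L J (J b) * t1) * (Rt L J b * t⁻¹)) := by rw [hRR]
      _ = (Rt L J b)⁻¹ * t1 * Rt L J b * t⁻¹ := by group
  obtain ⟨l, hl⟩ : ∃ l, l = X * t⁻¹ := ⟨_, rfl⟩
  have hlmu : (L a)⁻¹ * mu * L a = mu * l := by
    have h2 : XJ⁻¹ = (Rt L J (J b))⁻¹ * t⁻¹ * Rt L J (J b) := by rw [hXJ]; group
    calc (L a)⁻¹ * mu * L a = ((L a)⁻¹ * Rt L J b * L a) * ((L a)⁻¹ * Rt L J (J b) * L a) := by
          rw [hmu]; group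
      _ = (Rt L J b * t⁻¹) * (Rt L J (J b) * t1) := by rw [f1, f2]
      _ = mu * (XJ⁻¹ * t1) := by rw [hmu, h2]; group
      _ = mu * l := by rw [e1, hl]
  obtain ⟨a', ha'⟩ : ∃ a', a' = mu⁻¹ a := ⟨_, rfl⟩
  have hmua : mu a' = a := by rw [ha']; exact mu.apply_symm_apply a
  have hl2 : l = (L a')⁻¹ * L a := by
    have h1 := h.equi mu⁻¹ (G.inv_mem hmuG) (by rw [Perm.inv_eq_iff_eq, hmue]) a
    rw [inv_inv, ← ha'] at h1
    have h2 : l = mu⁻¹ * ((L a)⁻¹ * mu * L a) := by rw [hlmu]; group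
    rw [h2, ← h1]; group
  have hl3 : l = (L b)⁻¹ * L (t b) := by
    rw [hl, hX, ← h.equi t htG hte b]; group
  obtain ⟨u, hu⟩ : ∃ u, u = l e := ⟨_, rfl⟩
  have hbu : L b u = t b := by
    rw [hu, hl3, Perm.mul_apply, h.Le]; exact (L b).apply_symm_apply _
  have ha'u : L a' u = a := by
    rw [hu, hl2, Perm.mul_apply, h.Le]; exact (L a').apply_symm_apply _
  obtain ⟨k, hk⟩ : ∃ k, k = l⁻¹ * L u := ⟨_, rfl⟩
  have hlG : l ∈ G := by
    rw [hl2]; exact G.mul_mem (G.inv_mem (h.memL _)) (h.memL _)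
  have hkG : k ∈ G := by rw [hk]; exact G.mul_mem (G.inv_mem hlG) (h.memL _)
  have hke : k e = e := by
    rw [hk, Perm.mul_apply, h.Le, Perm.inv_eq_iff_eq, hu]
  have hkb : k b = b := by
    have h1 : k = (L (L b u))⁻¹ * L b * L u := by rw [hk, hl3, hbu]; group
    rw [h1]
    simp only [Perm.mul_apply]
    rw [h0.flex', Perm.inv_eq_iff_eq]
  have hka' : k a' = a' := by
    have h1 : k = (L (L a' u))⁻¹ * L a' * L u := by rw [hk, hl2, ha'u]; group
    rw [h1]
    simp only [Perm.mul_apply]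
    rw [h0.flex', Perm.inv_eq_iff_eq]
  have ckR : Commute k (Rt L J b) := h0.comR hkG hke hkb
  have ckRJ : Commute k (Rt L J (J b)) := h0.comR hkG hke (h0.fixJ hkG hke hkb)
  have ckmu : Commute k mu := by rw [hmu]; exact ckR.mul_right ckRJ
  have hka : k a = a := by
    have h1 := congrArg (fun f : Perm Q => f a') ckmu.eq
    simp only [Perm.mul_apply] at h1
    rw [hmua, hka', hmua] at h1
    exact h1
  have ckLa : Commute k (L a) := h0.comL hkG hke hka
  have ckLb : Commute k (L b) := h0.comL hkG hke hkb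
  have ckt : Commute k t := by
    rw [ht]; unfold Th
    exact ((ckLa.inv_right.mul_right ckR.inv_right).mul_right ckLa).mul_right ckR
  have hku : k u = u := by
    have h2 : k (t b) = t b := by
      have h1 := congrArg (fun f : Perm Q => f b) ckt.eq
      simp only [Perm.mul_apply] at h1
      rw [h1, hkb]
    have h1 := congrArg (fun f : Perm Q => f u) ckLb.eq
    simp only [Perm.mul_apply] at h1
    rw [hbu, h2] at h1
    exact (L b).injective (h1.symm.trans hbu.symm)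
  have ckJ : Commute k J := h.comJ k hkG hke
  have hlk : l = L u * k⁻¹ := by rw [hk]; group
  have hXl : X = L u * k⁻¹ * t := by
    rw [← hlk, hl]; group
  have e2 : t1 * t = XJ * X := by
    calc t1 * t = XJ * (XJ⁻¹ * t1) * t := by group
      _ = XJ * (X * t⁻¹) * t := by rw [e1]
      _ = XJ * X := by group
  have htu : t u = u := by
    have h1 : (t1 * t) e = e := by
      rw [ht1]
      simp only [Perm.mul_apply]
      rw [hte, hTe, hte, Perm.inv_eq_iff_eq, hTe]
    have h2 : XJ = Rt L J (J u) * k⁻¹ * t := by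
      rw [hXJd, hXl, ← h0.JLJ u]
      have c1 : k⁻¹ * J = J * k⁻¹ := (ckJ.inv_left).eq
      calc J * (L u * k⁻¹ * t) * J = J * L u * k⁻¹ * (t * J) := by group
        _ = J * L u * (k⁻¹ * J) * t := by rw [htJ]; group
        _ = J * L u * (J * k⁻¹) * t := by rw [c1]
        _ = J * L u * J * k⁻¹ * t := by group
    rw [e2, h2, hXl] at h1
    simp only [Perm.mul_apply] at h1
    have h3 : k⁻¹ e = e := by rw [Perm.inv_eq_iff_eq, hke]
    rw [hte, h3, h.Le] at h1
    have h4 : k⁻¹ (t u) = t u := by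
      rw [Perm.inv_eq_iff_eq]
      have h5 := congrArg (fun f : Perm Q => f u) ckt.eq
      simp only [Perm.mul_apply] at h5
      rw [h5, hku]
    rw [h4, h0.Rt_app] at h1
    have h6 := h.LJ (t u)
    have h7 : J u = J (t u) := (L (t u)).injective (h1.trans h6.symm)
    exact (J.injective h7).symm
  refine ⟨u, k, hkG, hke, hku, ?_, ckJ, ?_, ?_, ?_, ?_⟩
  · rw [← ht]; exact ckt
  · rw [← ht]; exact htu
  · rw [← ht]; exact hbu
  · rw [← ht, ← hX]; exact hXl
  · rw [← ht, ← hX, ← hT, ← ht1, ← hXJd]; exact e2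

/-- K7 from the commutation of `[th(a, b), T_b]` with its conjugates -/
theorem K7_of [Finite Q] (h : AL G L J e) (hna : ¬ Assoc L) (hfix : ∀ x, J x = x → x = e)
    (heta : ∀ a b q, Commute (Th L J a b * Tx L J b * (Th L J a b)⁻¹ * (Tx L J b)⁻¹)
      (D L J q * (Th L J a b * Tx L J b * (Th L J a b)⁻¹ * (Tx L J b)⁻¹) * D L J q))
    (a b : Q) : Th L J a b b = b := by
  have h0 := h.al0
  have hJJ := h.JJ1
  have heta' := heta a b
  obtain ⟨u, k, hkG, hke, hku, ckt, ckJ, htu, hbu, hX, e2⟩ := h.t_data a b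
  have htG : Th L J a b ∈ G := h0.Th_mem a b
  have hte : Th L J a b e = e := h0.Th_e a b
  have htJ : Commute (Th L J a b) J := h0.Th_J a b
  have hTG : Tx L J b ∈ G := h0.Tx_mem b
  have hTe : Tx L J b e = e := h0.Tx_e b
  obtain ⟨t, ht⟩ : ∃ t, t = Th L J a b := ⟨_, rfl⟩
  obtain ⟨T, hT⟩ : ∃ T, T = Tx L J b := ⟨_, rfl⟩
  rw [← ht] at heta' ckt htu hbu hX e2 htG hte htJ ⊢
  rw [← hT] at heta' e2 hTG hTe
  obtain ⟨t1, ht1⟩ : ∃ t1, t1 = T⁻¹ * t * T := ⟨_, rfl⟩
  obtain ⟨X, hXd⟩ : ∃ X, X = (L b)⁻¹ * t * L b := ⟨_, rfl⟩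
  rw [← ht1, ← hXd] at e2
  rw [← hXd] at hX
  have ht1J : Commute t1 J := by
    have hTJ : Commute T J := by rw [hT]; exact h0.Tx_J b
    rw [ht1]
    exact (hTJ.inv_left.mul_left htJ).mul_left hTJ
  obtain ⟨XJ, hXJd⟩ : ∃ XJ, XJ = J * X * J := ⟨_, rfl⟩
  rw [← hXJd] at e2
  have ctL : Commute t (L u) := h0.comL htG hte htu
  have ctk : Commute t k := ckt.symm
  have ctX : Commute t X := by
    rw [hX]; exact (ctL.mul_right ctk.inv_right).mul_right (Commute.refl t)
  have ctXJ : Commute t XJ := by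
    rw [hXJd]; exact (htJ.mul_right ctX).mul_right htJ
  have ctt1 : Commute t t1 := by
    have h1 : t1 = XJ * X * t⁻¹ := by rw [← e2]; group
    rw [h1]
    exact (ctXJ.mul_right ctX).mul_right (Commute.refl t).inv_right
  have e3 : t1 * t = X * XJ := by
    have c1 : Commute (t1 * t) J := ht1J.mul_left htJ
    calc t1 * t = t1 * t * (J * J) := by rw [hJJ, mul_one]
      _ = (t1 * t * J) * J := by group
      _ = (J * (t1 * t)) * J := by rw [c1.eq]
      _ = (J * (XJ * X)) * J := by rw [e2]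
      _ = (J * J) * X * (J * X * J) := by rw [hXJd]; group
      _ = X * XJ := by rw [hJJ, one_mul, hXJd]
  have cXX : Commute X XJ := by
    change X * XJ = XJ * X
    rw [← e3, e2]
  have ct1X : Commute t1 X := by
    have h1 : t1 = XJ * X * t⁻¹ := by rw [← e2]; group
    rw [h1]
    exact (cXX.symm.mul_left (Commute.refl X)).mul_left (ctX.inv_left)
  -- the line through `b`
  have cD : Commute t (D L J b * t * D L J b) := by
    have h1 : D L J b * t * D L J b = L b * XJ * (L b)⁻¹ := by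
      rw [hXJd, hXd]; unfold D; group
    have h2 : t = L b * X * (L b)⁻¹ := by rw [hXd]; group
    rw [h1]
    change t * (L b * XJ * (L b)⁻¹) = (L b * XJ * (L b)⁻¹) * t
    rw [h2]
    calc L b * X * (L b)⁻¹ * (L b * XJ * (L b)⁻¹) = L b * (X * XJ) * (L b)⁻¹ := by group
      _ = L b * (XJ * X) * (L b)⁻¹ := by rw [cXX.eq]
      _ = L b * XJ * (L b)⁻¹ * (L b * X * (L b)⁻¹) := by group
  obtain ⟨al, hal⟩ : ∃ al, al = X * t⁻¹ := ⟨_, rfl⟩
  have hDi : ∀ q, (D L J q)⁻¹ = D L J q := fun q => inv_eq_of_mul_eq_one_left (h.D_sq q)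
  have hLt : ∀ x, L (t x) = t * L x * t⁻¹ := fun x => (h.equi t htG hte x).symm
  -- `al` commutes with its conjugates
  have hDR : ∀ x y, D L J (L x y) = Rt L J y * D L J x * (Rt L J y)⁻¹ := by
    intro x y
    have h1 := h.D_conj (h0.memR y) x
    rw [h0.Rt_app] at h1
    exact h1.symm
  have hDL : ∀ x y, D L J (L x y) = L x * D L J y * (L x)⁻¹ :=
    fun x y => (h.D_conj (h.memL x) y).symm
  have calD : ∀ q, Commute al (D L J q * al * D L J q) := by
    intro q
    obtain ⟨s, hs⟩ : ∃ s, s = t * (D L J b * t⁻¹ * D L J b) := ⟨_, rfl⟩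
    have g1 : D L J (t b) = s * D L J b := by
      rw [← h.D_conj htG, hs]
      calc t * D L J b * t⁻¹ = t * D L J b * t⁻¹ * 1 := by group
        _ = t * D L J b * t⁻¹ * (D L J b * D L J b) := by rw [h.D_sq b]
        _ = t * (D L J b * t⁻¹ * D L J b) * D L J b := by group
    have g2 : D L J (t (t b)) = s * s * D L J b := by
      rw [← h.D_conj htG, g1, hs]
      have c1 : Commute t (D L J b * t⁻¹ * D L J b) := by
        have h1 : D L J b * t⁻¹ * D L J b = (D L J b * t * D L J b)⁻¹ := by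
          rw [mul_inv_rev, mul_inv_rev, hDi]; group
        rw [h1]; exact cD.inv_right
      obtain ⟨w, hw⟩ : ∃ w, w = D L J b * t⁻¹ * D L J b := ⟨_, rfl⟩
      rw [← hw] at c1 ⊢
      have h2 : D L J b * t⁻¹ = w * D L J b := by
        rw [hw]
        calc D L J b * t⁻¹ = D L J b * t⁻¹ * 1 := by group
          _ = D L J b * t⁻¹ * (D L J b * D L J b) := by rw [h.D_sq b]
          _ = _ := by group
      calc t * (t * w * D L J b) * t⁻¹ = t * t * w * (D L J b * t⁻¹) := by group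
        _ = t * (t * w) * (w * D L J b) := by rw [h2]; group
        _ = t * (w * t) * (w * D L J b) := by rw [c1.eq]
        _ = t * w * (t * w) * D L J b := by group
    have k1 : L (t b) = L b * al := by
      rw [hLt, hal, hXd]; group
    have k2 : L (t (t b)) = L b * (al * al) := by
      rw [hLt (t b), hLt b, hal]
      have h1 : L b * (X * t⁻¹ * (X * t⁻¹)) = L b * (X * (t⁻¹ * X) * t⁻¹) := by group
      rw [h1, (ctX.inv_left).eq, hXd]; group
    obtain ⟨c, hc⟩ : ∃ c, c = (L b)⁻¹ * Rt L J q * s * (Rt L J q)⁻¹ * L b := ⟨_, rfl⟩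
    have m0 : L b * D L J q * (L b)⁻¹ = Rt L J q * D L J b * (Rt L J q)⁻¹ := by
      rw [← hDL, ← hDR]
    have m1 : al * D L J q * al⁻¹ = c * D L J q := by
      have h1 : L (t b) * D L J q * (L (t b))⁻¹ =
          Rt L J q * D L J (t b) * (Rt L J q)⁻¹ := by rw [← hDL, ← hDR]
      rw [k1, g1] at h1
      calc al * D L J q * al⁻¹ = (L b)⁻¹ * (L b * al * D L J q * (L b * al)⁻¹) * L b := by group
        _ = (L b)⁻¹ * (Rt L J q * (s * D L J b) * (Rt L J q)⁻¹) * L b := by rw [h1]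
        _ = (L b)⁻¹ * Rt L J q * s * (Rt L J q)⁻¹ * (Rt L J q * D L J b * (Rt L J q)⁻¹) * L b := by
            group
        _ = (L b)⁻¹ * Rt L J q * s * (Rt L J q)⁻¹ * (L b * D L J q * (L b)⁻¹) * L b := by rw [m0]
        _ = c * D L J q := by rw [hc]; group
    have m2 : (al * al) * D L J q * (al * al)⁻¹ = c * c * D L J q := by
      have h1 : L (t (t b)) * D L J q * (L (t (t b)))⁻¹ =
          Rt L J q * D L J (t (t b)) * (Rt L J q)⁻¹ := by rw [← hDL, ← hDR]
      rw [k2, g2] at h1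
      calc (al * al) * D L J q * (al * al)⁻¹ =
          (L b)⁻¹ * (L b * (al * al) * D L J q * (L b * (al * al))⁻¹) * L b := by group
        _ = (L b)⁻¹ * (Rt L J q * (s * s * D L J b) * (Rt L J q)⁻¹) * L b := by rw [h1]
        _ = (L b)⁻¹ * Rt L J q * s * s * (Rt L J q)⁻¹ *
            (Rt L J q * D L J b * (Rt L J q)⁻¹) * L b := by group
        _ = (L b)⁻¹ * Rt L J q * s * s * (Rt L J q)⁻¹ * (L b * D L J q * (L b)⁻¹) * L b := by
            rw [m0]
        _ = c * c * D L J q := by rw [hc]; group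
    have hDD := h.D_sq q
    obtain ⟨d, hd⟩ : ∃ d, d = D L J q := ⟨_, rfl⟩
    rw [← hd] at m1 m2 hDD ⊢
    have hdi : d⁻¹ = d := inv_eq_of_mul_eq_one_left hDD
    have n1 : c = al * (d * al⁻¹ * d) := by
      calc c = c * (d * d) := by rw [hDD, mul_one]
        _ = (c * d) * d := by group
        _ = (al * d * al⁻¹) * d := by rw [m1]
        _ = _ := by group
    have n2 : c * c = al * al * (d * al⁻¹ * d) * (d * al⁻¹ * d) := by
      calc c * c = c * c * (d * d) := by rw [hDD, mul_one]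
        _ = (c * c * d) * d := by group
        _ = ((al * al) * d * (al * al)⁻¹) * d := by rw [m2]
        _ = al * al * (d * al⁻¹ * 1 * al⁻¹ * d) := by group
        _ = al * al * (d * al⁻¹ * (d * d) * al⁻¹ * d) := by rw [hDD]
        _ = _ := by group
    obtain ⟨w, hw⟩ : ∃ w, w = d * al⁻¹ * d := ⟨_, rfl⟩
    rw [← hw] at n1 n2
    have n3 : w * al = al * w := by
      rw [n1] at n2
      calc w * al = al⁻¹ * (al * w * (al * w)) * w⁻¹ := by group
        _ = al⁻¹ * (al * al * w * w) * w⁻¹ := by rw [n2]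
        _ = al * w := by group
    have n4 : d * al * d = w⁻¹ := by
      rw [hw, mul_inv_rev, mul_inv_rev, hdi]; group
    rw [n4]
    exact (show Commute w al from n3).symm.inv_right
  -- the second element
  obtain ⟨be, hbe⟩ : ∃ be, be = J * al⁻¹ * J := ⟨_, rfl⟩
  have cbeD : ∀ q, Commute be (D L J q * be * D L J q) := by
    intro q
    have h1 := calD (J q)
    rw [← h.D_J q] at h1
    have h2 : D L J q * be * D L J q = J * ((J * D L J q * J) * al * (J * D L J q * J))⁻¹ * J := by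
      rw [hbe]
      simp only [mul_inv_rev, h.Jinv, hDi]
      calc D L J q * (J * al⁻¹ * J) * D L J q = 1 * D L J q * J * al⁻¹ * J * D L J q * 1 := by group
        _ = (J * J) * D L J q * J * al⁻¹ * J * D L J q * (J * J) := by rw [hJJ]
        _ = J * (J * (D L J q * J) * (al⁻¹ * (J * (D L J q * J)))) * J := by group
    rw [h2, hbe]
    obtain ⟨y, hy⟩ : ∃ y, y = (J * D L J q * J) * al * (J * D L J q * J) := ⟨_, rfl⟩
    rw [← hy] at h1 ⊢
    have h3 : Commute al⁻¹ y⁻¹ := h1.inv_inv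
    change J * al⁻¹ * J * (J * y⁻¹ * J) = J * y⁻¹ * J * (J * al⁻¹ * J)
    calc J * al⁻¹ * J * (J * y⁻¹ * J) = J * al⁻¹ * (J * J) * y⁻¹ * J := by group
      _ = J * (al⁻¹ * y⁻¹) * J := by rw [hJJ]; group
      _ = J * (y⁻¹ * al⁻¹) * J := by rw [h3.eq]
      _ = J * y⁻¹ * 1 * al⁻¹ * J := by group
      _ = J * y⁻¹ * (J * J) * al⁻¹ * J := by rw [hJJ]
      _ = J * y⁻¹ * J * (J * al⁻¹ * J) := by group
  have hbe2 : be = X * t1⁻¹ := by
    have h1 : XJ = X⁻¹ * (t1 * t) := by rw [e3]; group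
    have h2 : be = t * XJ⁻¹ := by
      rw [hbe, hal, hXJd]
      simp only [mul_inv_rev, inv_inv, h.Jinv]
      calc J * (t * X⁻¹) * J = (J * t) * X⁻¹ * J := by group
        _ = (t * J) * X⁻¹ * J := by rw [htJ.eq]
        _ = t * (J * (X⁻¹ * J)) := by group
    rw [h2, h1, mul_inv_rev, inv_inv]
    calc t * ((t1 * t)⁻¹ * X) = t * (t⁻¹ * t1⁻¹ * X) := by group
      _ = t1⁻¹ * X := by group
      _ = X * t1⁻¹ := (ct1X.inv_left).eq
  have cab : Commute al be := by
    rw [hal, hbe2]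
    exact ((Commute.refl X).mul_right ct1X.symm.inv_right).mul_left
      ((ctX.inv_left).mul_right (ctt1.inv_inv))
  -- the quotient is a conjugate of `η`
  obtain ⟨eta, heta0⟩ : ∃ eta, eta = t * T * t⁻¹ * T⁻¹ := ⟨_, rfl⟩
  rw [← heta0] at heta'
  have hq : al * be⁻¹ = T⁻¹ * eta * T := by
    rw [hal, hbe2, mul_inv_rev, inv_inv]
    calc X * t⁻¹ * (t1 * X⁻¹) = X * (t⁻¹ * t1) * X⁻¹ := by group
      _ = (t⁻¹ * t1) * X * X⁻¹ := by rw [((ctX.inv_left).mul_left ct1X).eq]
      _ = t⁻¹ * t1 := by group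
      _ = t1 * t⁻¹ := (ctt1.inv_left).eq
      _ = T⁻¹ * eta * T := by rw [ht1, heta0]; group
  have cq : ∀ q, Commute (al * be⁻¹) (D L J q * (al * be⁻¹) * D L J q) := by
    intro q
    have h1 := heta' (T q)
    rw [← h.D_conj hTG q] at h1
    rw [hq]
    have h2 : D L J q * (T⁻¹ * eta * T) * D L J q =
        T⁻¹ * ((T * D L J q * T⁻¹) * eta * (T * D L J q * T⁻¹)) * T := by group
    rw [h2]
    obtain ⟨y, hy⟩ : ∃ y, y = (T * D L J q * T⁻¹) * eta * (T * D L J q * T⁻¹) := ⟨_, rfl⟩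
    rw [← hy] at h1 ⊢
    change T⁻¹ * eta * T * (T⁻¹ * y * T) = T⁻¹ * y * T * (T⁻¹ * eta * T)
    calc T⁻¹ * eta * T * (T⁻¹ * y * T) = T⁻¹ * (eta * y) * T := by group
      _ = T⁻¹ * (y * eta) * T := by rw [h1.eq]
      _ = T⁻¹ * y * T * (T⁻¹ * eta * T) := by group
  have hcom : ∀ q, Commute (al * be) (D L J q * (al * be) * D L J q) := by
    intro q
    have hDD := h.D_sq q
    obtain ⟨d, hd⟩ : ∃ d, d = D L J q := ⟨_, rfl⟩
    have c1 := calD q
    have c2 := cbeD q
    have c3 := cq q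
    rw [← hd] at hDD c1 c2 c3 ⊢
    have hdi : d⁻¹ = d := inv_eq_of_mul_eq_one_left hDD
    have h1 : d * (al * be) * d = (d * al * d) * (d * be * d) := by
      calc d * (al * be) * d = d * al * 1 * be * d := by group
        _ = d * al * (d * d) * be * d := by rw [hDD]
        _ = _ := by group
    have h2 : d * (al * be⁻¹) * d = (d * al * d) * (d * be * d)⁻¹ := by
      rw [mul_inv_rev, mul_inv_rev, hdi]
      calc d * (al * be⁻¹) * d = d * al * 1 * be⁻¹ * d := by group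
        _ = d * al * (d * d) * be⁻¹ * d := by rw [hDD]
        _ = _ := by group
    rw [h2] at c3
    rw [h1]
    have c4 : Commute (d * al * d) (d * be * d) := by
      change d * al * d * (d * be * d) = d * be * d * (d * al * d)
      calc d * al * d * (d * be * d) = d * al * (d * d) * be * d := by group
        _ = d * (al * be) * d := by rw [hDD]; group
        _ = d * (be * al) * d := by rw [cab.eq]
        _ = d * be * 1 * al * d := by group
        _ = d * be * (d * d) * al * d := by rw [hDD]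
        _ = _ := by group
    exact square_trick c1 c2 cab c4 c3
  have halG : al ∈ G := by
    rw [hal, hXd]
    exact G.mul_mem (G.mul_mem (G.mul_mem (G.inv_mem (h.memL _)) htG) (h.memL _)) (G.inv_mem htG)
  have hale : al e = u := by
    have h1 : al = L u * k⁻¹ := by
      rw [hal, hX]; group
    rw [h1, Perm.mul_apply]
    have h3 : k⁻¹ e = e := by rw [Perm.inv_eq_iff_eq, hke]
    rw [h3, h.Le]
  have hP : al * be = D L J u * D L J e := by
    have h1 := h.D_conj halG e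
    rw [hale, h.D_e] at h1
    rw [← h1, hbe, h.D_e]; group
  obtain ⟨n, hn, hnP⟩ := h.odd_DD hfix u e
  rw [← hP] at hnP
  have hJP : J * (al * be) * J = (al * be)⁻¹ := by
    rw [hP, h.D_e, mul_inv_rev, h.Jinv, hDi]
    calc J * (D L J u * J) * J = J * D L J u * (J * J) := by group
      _ = J * D L J u := by rw [hJJ, mul_one]
  have hP1 : al * be = 1 := by
    refine h.close hna ?_ hn hnP (r := e) ?_ hcom
    · rw [hbe]; exact G.mul_mem halG (h.JG _ (G.inv_mem halG))
    · rw [h.D_e]; exact hJP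
  have hue : u = e := by
    rw [hP1] at hP
    apply h.D_inj
    calc D L J u = D L J u * (D L J e * D L J e) := by rw [h.D_sq e, mul_one]
      _ = (D L J u * D L J e) * D L J e := by group
      _ = D L J e := by rw [← hP, one_mul]
  rw [hue, h.Le] at hbu
  exact hbu.symm

end AL

end ALoop
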